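import Pool.Agent.Helper54.UN.St

/-!
# Project UN, part (C), module OFU

The label function of the hexagon network is locally constant off the walls, in the half plane.
-/

set_option autoImplicit false

noncomputable section

namespace Pool.Agent.Helper47.UNC

open Set Filter Topology Pool.Agent.Helper71.UN Pool.Agent.Helper54.UN

private theorem fin_of {f : ℂ → ℤ} {x : ℂ} {v : ℤ} (h : ∀ᶠ y in 𝓝 x, f y = v) :
    ∀ᶠ y in 𝓝 x, f y = f x := by
  have h1 : f x = v := h.self_of_nhds
  exact h.mono (fun y hy => hy.trans h1.symm)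

private theorem lf67 (y : ℂ) : lf om (-1) (-y) = lf (-om) 1 y := by
  rw [lf_eq, lf_eq]
  simp
  ring

private theorem lf_sw (P Q x : ℂ) : lf Q P x = - lf P Q x := by
  rw [lf_eq, lf_eq]; ring

private theorem open_inH (a x : ℂ) (h : inH a x) : ∀ᶠ y in 𝓝 x, inH a y := by
  obtain ⟨⟨h1, h2, h3⟩, h4, h5, h6⟩ := h
  have c4 : Continuous fun y : ℂ => lf 1 a (-y) := (continuous_lf 1 a).comp continuous_neg
  have c5 : Continuous fun y : ℂ => lf a om (-y) := (continuous_lf a om).comp continuous_neg
  have c6 : Continuous fun y : ℂ => lf om (-1) (-y) := (continuous_lf om (-1)).comp continuous_neg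
  filter_upwards [evp (continuous_lf 1 a) h1, evp (continuous_lf a om) h2,
    evp (continuous_lf om (-1)) h3, evp c4 h4, evp c5 h5, evp c6 h6] with y g1 g2 g3 g4 g5 g6
  exact ⟨⟨g1, g2, g3⟩, g4, g5, g6⟩

theorem hOFU (hU : StU) (hIOH : StIOH) (hFAR : StFAR) (hSEGM : StSEGM) : StOFU := by
  intro k l a b τ g hG x hx hW
  have w0 : x ∉ segment ℝ τ a := by simpa [vA, vB] using (hW 0).1
  have w1 : x ∉ segment ℝ om a := by simpa [vA, vB] using (hW 1).1
  have w2 : x ∉ segment ℝ om b := by simpa [vA, vB] using (hW 2).1
  have w3 : x ∉ segment ℝ τ b := by simpa [vA, vB] using (hW 3).1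
  have w4 : x ∉ segment ℝ 1 b := by simpa [vA, vB] using (hW 4).1
  have w5 : x ∉ segment ℝ 1 a := by simpa [vA, vB] using (hW 5).1
  have w6 : x ∉ segment ℝ om (-1) := by simpa [vA, vB] using (hW 6).1
  have w6' : -x ∉ segment ℝ om (-1) := by simpa [vA, vB] using (hW 6).2
  by_cases hin : inH a x
  · refine fin_of (v := 0) ?_
    filter_upwards [open_inH a x hin] with y hy
    unfold lamN
    rw [if_pos hy]
  by_cases hou : ouH b x
  · refine fin_of (v := 1) ?_
    filter_upwards [(hFAR a b τ g hG x).2.2 hou] with y hy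
    unfold lamN
    rw [if_neg hy.1, if_pos hy.2]
  obtain ⟨hI, hO⟩ := hIOH a b τ g hG x hx
  have hI' : ¬ (0 < lf 1 a x ∧ 0 < lf a om x ∧ 0 < lf om (-1) x ∧ 0 < lf (-om) 1 x) :=
    fun h => hin (hI.2 h)
  have f4n : 0 ≤ lf 1 b x := not_lt.1 fun h => hou (hO.2 (Or.inl h))
  have f2n : 0 ≤ lf b om x := not_lt.1 fun h => hou (hO.2 (Or.inr (Or.inl h)))
  have f6n : 0 ≤ lf om (-1) x := not_lt.1 fun h => hou (hO.2 (Or.inr (Or.inr (Or.inl h))))
  have f7n : 0 ≤ lf (-om) 1 x := not_lt.1 fun h => hou (hO.2 (Or.inr (Or.inr (Or.inr h))))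
  have f4m : 0 ≤ lf 1 b (-x) := not_lt.1 fun h => hou (Or.inr (Or.inl h))
  have f2m : 0 ≤ lf b om (-x) := not_lt.1 fun h => hou (Or.inr (Or.inr (Or.inl h)))
  have aux6 : ∀ z : ℂ, lf om (-1) z = 0 → 0 ≤ lf b om z → 0 ≤ lf 1 b (-z) →
      z ∈ segment ℝ om (-1) := by
    intro z h0 h2 h4
    have hne : om ≠ -1 := by
      intro h
      have h5 := congrArg Complex.im h
      rw [om_im] at h5
      simp at h5
    obtain ⟨u, hu, hs, hl⟩ := hSEGM om (-1) z hne h0
    have h5 := hl b om
    rw [lf_end, mul_zero, zero_add] at h5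
    rw [h5] at h2
    have hu0 : 0 ≤ u := by
      by_contra h
      have := mul_neg_of_neg_of_pos (not_le.1 h) hG.f2n
      linarith
    have h6 : -z = -om + u * (1 - (-om)) := by rw [hu]; ring
    rw [h6, lf_comb, lf_start, mul_zero, add_zero] at h4
    have hu1 : u ≤ 1 := by
      by_contra h
      have := mul_neg_of_neg_of_pos (sub_neg.2 (not_le.1 h)) hG.f4m
      linarith
    exact hs hu0 hu1
  have f6 : 0 < lf om (-1) x := by
    refine lt_of_le_of_ne f6n fun h => w6 ?_
    exact aux6 x h.symm f2n f4m
  have f7 : 0 < lf (-om) 1 x := by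
    refine lt_of_le_of_ne f7n fun h => w6' ?_
    refine aux6 (-x) ?_ f2m ?_
    · rw [lf67]; exact h.symm
    · rw [neg_neg]; exact f4n
  have f4 : 0 < lf 1 b x := by
    refine lt_of_le_of_ne f4n fun h => w4 ?_
    have hne : (1 : ℂ) ≠ b := by
      intro h1
      have := hG.d4
      rw [← h1] at this
      simp at this
    obtain ⟨u, hu, hs, hl⟩ := hSEGM 1 b x hne h.symm
    have h7 := hl (-om) 1
    rw [lf_end, mul_zero, zero_add] at h7
    have h2 := hl b om
    rw [lf_start, mul_zero, add_zero] at h2
    have hu0 : 0 ≤ u := by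
      by_contra h
      have := mul_neg_of_neg_of_pos (not_le.1 h) hG.f7b
      linarith
    have hu1 : u ≤ 1 := by
      by_contra h
      have := mul_neg_of_neg_of_pos (sub_neg.2 (not_le.1 h)) hG.f2v
      linarith
    exact hs hu0 hu1
  have f2 : 0 < lf b om x := by
    refine lt_of_le_of_ne f2n fun h => w2 ?_
    have hne : om ≠ b := by
      intro h1
      have := hG.d2
      rw [← h1] at this
      simp at this
    have h0 : lf om b x = 0 := by rw [lf_sw, ← h, neg_zero]
    obtain ⟨u, hu, hs, hl⟩ := hSEGM om b x hne h0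
    have h6 := hl om (-1)
    rw [lf_start, mul_zero, zero_add] at h6
    have h4 := hl 1 b
    rw [lf_end, mul_zero, add_zero] at h4
    have hu0 : 0 ≤ u := by
      by_contra h
      have := mul_neg_of_neg_of_pos (not_le.1 h) hG.f6b
      linarith
    have hu1 : u ≤ 1 := by
      by_contra h
      have := mul_neg_of_neg_of_pos (sub_neg.2 (not_le.1 h)) hG.f4o
      linarith
    exact hs hu0 hu1
  have hplu : dt (a - om) (a - 1) * lf a b x =
      - lf 1 a x * dt (b - a) (a - om) - lf a om x * dt (b - a) (a - 1) := by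
    simp only [lf_eq, dt_eq, Complex.sub_re, Complex.sub_im, Complex.one_re, Complex.one_im]
    ring
  have t15 := hG.t15
  have e1 := hG.e1
  have e5 := hG.e5
  have eel : ∀ᶠ y in 𝓝 x, 0 < el y := evp continuous_el hx
  have e4 : ∀ᶠ y in 𝓝 x, 0 < lf 1 b y := evp (continuous_lf 1 b) f4
  have e2 : ∀ᶠ y in 𝓝 x, 0 < lf b om y := evp (continuous_lf b om) f2
  have e6 : ∀ᶠ y in 𝓝 x, 0 < lf om (-1) y := evp (continuous_lf om (-1)) f6
  have e7 : ∀ᶠ y in 𝓝 x, 0 < lf (-om) 1 y := evp (continuous_lf (-om) 1) f7
  rcases lt_or_ge (lf a b x) 0 with gd | gd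
  · -- case (ii)
    have f5 : lf 1 a x < 0 := by
      rcases lt_trichotomy (lf 1 a x) 0 with h | h | h
      · exact h
      · exfalso
        apply w5
        have hne : (1 : ℂ) ≠ a := by
          intro h1
          have := hG.d5
          rw [← h1] at this
          simp at this
        obtain ⟨u, hu, hs, hl⟩ := hSEGM 1 a x hne h
        have h7 := hl (-om) 1
        rw [lf_end, mul_zero, zero_add] at h7
        have h2 := hl a b
        rw [lf_start, mul_zero, add_zero] at h2
        have hu0 : 0 ≤ u := by
          by_contra h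
          have := mul_neg_of_neg_of_pos (not_le.1 h) hG.f7a
          linarith
        have hu1 : u ≤ 1 := by
          by_contra h
          have := mul_pos_of_neg_of_neg (sub_neg.2 (not_le.1 h)) hG.gdv
          linarith
        exact hs hu0 hu1
      · exfalso
        have h1 : lf a om x ≤ 0 := not_lt.1 fun h1 => hI' ⟨h, h1, f6, f7⟩
        have h2 : dt (a - om) (a - 1) * lf a b x < 0 := mul_neg_of_pos_of_neg t15 gd
        have h3 : lf 1 a x * dt (b - a) (a - om) < 0 := mul_neg_of_pos_of_neg h e1
        have h4 : lf a om x * dt (b - a) (a - 1) ≤ 0 := mul_nonpos_of_nonpos_of_nonneg h1 e5.le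
        linarith
    refine fin_of (v := k) ?_
    filter_upwards [eel, e4, e2, e6, e7, evn (continuous_lf a b) gd,
      evn (continuous_lf 1 a) f5] with y y0 y4 y2 y6 y7 yd y5
    rw [hU k l a b τ g hG y y0]
    unfold lamU
    rw [if_neg (fun h => absurd h.1 (not_lt.2 y5.le)), if_neg, if_pos (Or.inl yd)]
    rintro (h | h | h | h)
    · exact absurd h (not_lt.2 y4.le)
    · exact absurd h (not_lt.2 y2.le)
    · exact absurd h (not_lt.2 y6.le)
    · exact absurd h (not_lt.2 y7.le)
  · -- case (iii)
    have f1 : lf a om x < 0 := by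
      rcases lt_trichotomy (lf a om x) 0 with h | h | h
      · exact h
      · exfalso
        apply w1
        have hne : om ≠ a := by
          intro h1
          have := hG.d1
          rw [← h1] at this
          simp at this
        have h0 : lf om a x = 0 := by rw [lf_sw, h, neg_zero]
        obtain ⟨u, hu, hs, hl⟩ := hSEGM om a x hne h0
        have h6 := hl om (-1)
        rw [lf_start, mul_zero, zero_add] at h6
        have h2 := hl a b
        rw [lf_start, mul_zero, add_zero] at h2
        have hu0 : 0 ≤ u := by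
          by_contra h
          have := mul_neg_of_neg_of_pos (not_le.1 h) hG.f6a
          linarith
        have hu1 : u ≤ 1 := by
          by_contra h
          have := mul_neg_of_neg_of_pos (sub_neg.2 (not_le.1 h)) hG.gdo
          linarith
        exact hs hu0 hu1
      · exfalso
        have h1 : lf 1 a x ≤ 0 := not_lt.1 fun h1 => hI' ⟨h1, h, f6, f7⟩
        have h2 : 0 ≤ dt (a - om) (a - 1) * lf a b x := mul_nonneg t15.le gd
        have h3 : 0 ≤ lf 1 a x * dt (b - a) (a - om) := mul_nonneg_of_nonpos_of_nonpos h1 e1.le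
        have h4 : 0 < lf a om x * dt (b - a) (a - 1) := mul_pos h e5
        linarith
    have e1' : ∀ᶠ y in 𝓝 x, lf a om y < 0 := evn (continuous_lf a om) f1
    by_cases hk : 0 < lf τ a x ∧ lf τ b x < 0
    · refine fin_of (v := k) ?_
      filter_upwards [eel, e4, e2, e6, e7, e1', evp (continuous_lf τ a) hk.1,
        evn (continuous_lf τ b) hk.2] with y y0 y4 y2 y6 y7 y1 yp yq
      rw [hU k l a b τ g hG y y0]
      unfold lamU
      rw [if_neg (fun h => absurd h.2.1 (not_lt.2 y1.le)), if_neg, if_pos (Or.inr ⟨yp, yq⟩)]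
      rintro (h | h | h | h)
      · exact absurd h (not_lt.2 y4.le)
      · exact absurd h (not_lt.2 y2.le)
      · exact absurd h (not_lt.2 y6.le)
      · exact absurd h (not_lt.2 y7.le)
    have gdp : 0 < lf a b x := by
      refine lt_of_le_of_ne gd fun h => hk ?_
      have hne : a ≠ b := by
        intro h1
        have h2 := hG.f1b
        rw [← h1, lf_start] at h2
        exact lt_irrefl _ h2
      obtain ⟨u, hu, hs, hl⟩ := hSEGM a b x hne h.symm
      have h1 := hl a om
      rw [lf_start, mul_zero, zero_add] at h1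
      have h2 := hl b om
      rw [lf_start, mul_zero, add_zero] at h2
      have h3 := hl τ a
      rw [lf_end, mul_zero, zero_add] at h3
      have h4 := hl τ b
      rw [lf_end, mul_zero, add_zero] at h4
      have hu0 : 0 < u := by
        by_contra h
        have := mul_nonneg_of_nonpos_of_nonpos (not_lt.1 h) hG.f1b.le
        linarith
      have hu1 : 0 < 1 - u := by
        by_contra h
        have := mul_nonpos_of_nonpos_of_nonneg (not_lt.1 h) hG.f2a.le
        linarith
      rw [h3, h4]
      exact ⟨mul_pos hu0 hG.g0b, mul_neg_of_pos_of_neg hu1 hG.g3a⟩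
    have key : lf τ a x < 0 ∨ 0 < lf τ b x := by
      by_contra hcon
      push Not at hcon
      obtain ⟨c1, c2⟩ := hcon
      rcases c1.lt_or_eq with c1' | c1'
      · have c3 : lf τ b x = 0 := by
          rcases c2.lt_or_eq with c2' | c2'
          · exact absurd ⟨c1', c2'⟩ hk
          · exact c2'
        apply w3
        have hne : τ ≠ b := by
          intro h1
          have := hG.d3
          rw [← h1] at this
          simp at this
        obtain ⟨u, hu, hs, hl⟩ := hSEGM τ b x hne c3
        have h3 := hl τ a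
        rw [lf_start, mul_zero, zero_add] at h3
        have h2 := hl a b
        rw [lf_end, mul_zero, add_zero] at h2
        have hu0 : 0 ≤ u := by
          by_contra h
          have := mul_neg_of_neg_of_pos (not_le.1 h) hG.g0b
          linarith
        have hu1 : u ≤ 1 := by
          by_contra h
          have := mul_neg_of_neg_of_pos (sub_neg.2 (not_le.1 h)) hG.gdt
          linarith
        exact hs hu0 hu1
      · apply w0
        have hne : τ ≠ a := by
          intro h1
          have := hG.d0
          rw [← h1] at this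
          simp at this
        obtain ⟨u, hu, hs, hl⟩ := hSEGM τ a x hne c1'.symm
        have h3 := hl τ b
        rw [lf_start, mul_zero, zero_add] at h3
        have h2 := hl a b
        rw [lf_start, mul_zero, add_zero] at h2
        have hu0 : 0 ≤ u := by
          by_contra h
          have := mul_pos_of_neg_of_neg (not_le.1 h) hG.g3a
          linarith
        have hu1 : u ≤ 1 := by
          by_contra h
          have := mul_neg_of_neg_of_pos (sub_neg.2 (not_le.1 h)) hG.gdt
          linarith
        exact hs hu0 hu1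
    have key2 : ∀ᶠ y in 𝓝 x, lf τ a y < 0 ∨ 0 < lf τ b y := by
      rcases key with h | h
      · exact (evn (continuous_lf τ a) h).mono fun y hy => Or.inl hy
      · exact (evp (continuous_lf τ b) h).mono fun y hy => Or.inr hy
    refine fin_of (v := l) ?_
    filter_upwards [eel, e4, e2, e6, e7, e1', evp (continuous_lf a b) gdp,
      key2] with y y0 y4 y2 y6 y7 y1 yd yk
    rw [hU k l a b τ g hG y y0]
    unfold lamU
    rw [if_neg (fun h => absurd h.2.1 (not_lt.2 y1.le)), if_neg, if_neg]
    · rintro (h | ⟨h, h'⟩)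
      · exact absurd h (not_lt.2 yd.le)
      · rcases yk with h1 | h1
        · exact absurd h (not_lt.2 h1.le)
        · exact absurd h' (not_lt.2 h1.le)
    · rintro (h | h | h | h)
      · exact absurd h (not_lt.2 y4.le)
      · exact absurd h (not_lt.2 y2.le)
      · exact absurd h (not_lt.2 y6.le)
      · exact absurd h (not_lt.2 y7.le)

end Pool.Agent.Helper47.UNC
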